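import Pool.Agent.Work.MP_2738db_nt_S_helper1.FS
import Pool.Agent.Work.MP_2738db_nt_S_helper1.WSC
import Pool.Agent.Work.MP_2738db_nt_S_helper58.DECS
import Pool.Agent.Work.MP_2738db_nt_S_helper87.IDLS
import Pool.Agent.Work.MP_2738db_nt_S_helper87.PIGS
import Pool.Agent.Work.MP_2738db_nt_X_helper40.FinalFlag

/-!
The final theorems WS and FS, all inputs proved.
-/

set_option autoImplicit false

namespace Pool.Agent.Work.MP_2738db_nt_S.helper1

open Pool.Agent.Work

/-- Theorem WS: two coprime elements of finitely generated monoids whose sum or difference is a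
perfect power -/
theorem final_WS : Stmt_WS :=
  stmt_WS MP_2738db_nt_A.helper96.stmt_FLD
    (MP_2738db_nt_S.helper58.stmt_DECS MP_2738db_nt_S.helper87.stmt_IDLS
      (MP_2738db_nt_S.helper87.stmt_PIGS MP_2738db_nt_A.helper59.stmt_Min
        MP_2738db_nt_A.helper59.stmt_Cnt))
    (MP_2738db_nt_A.helper83.stmt_TLG
      (MP_2738db_nt_A.helper44.stmt_Tlk
        (MP_2738db_nt_A.helper76.stmt_Cor MP_2738db_nt_A.helper43.stmt_Val
          MP_2738db_nt_A.helper43.stmt_Zer MP_2738db_nt_A.helper87.stmt_NRM))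
      MP_2738db_nt_A.helper87.stmt_NRM)

/-- Theorem FS -/
theorem final_FS : Stmt_FSX :=
  stmt_FSX
    (stmt_X0S MP_2738db_nt_U.helper15.stmt_Loc MP_2738db_nt_Z.helper55.stmt_Mom
      (MP_2738db_nt_X.helper46.stmt_Dpq MP_2738db_nt_X.helper79.stmt_Sux
        MP_2738db_nt_X.helper37.stmt_SMQ))
    (MP_2738db_nt_U.helper85.stmt_Step MP_2738db_nt_U.helper93.stmt_ARL)
    (MP_2738db_nt_Z.helper40.stepG MP_2738db_nt_U.helper93.stmt_ARL)
    final_WS

end Pool.Agent.Work.MP_2738db_nt_S.helper1
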