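import Pool.Agent.Work.MP_2738db_nt_S_helper1.FSHP
import Pool.Agent.Work.MP_2738db_nt_S_helper1.FinalFS

/-!
Theorem FSHP for a family of at most `N ^ κ` sets, all inputs proved.
-/

set_option autoImplicit false

namespace Pool.Agent.Work.MP_2738db_nt_S.helper1

open Finset
open Pool.Agent.Work

/-- Theorem FSHP, all inputs proved -/
theorem final_FSHP : Stmt_FSHP :=
  stmt_FSHP
    (stmt_X0H MP_2738db_nt_U.helper15.stmt_Loc MP_2738db_nt_Z.helper55.stmt_Mom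
      (MP_2738db_nt_X.helper46.stmt_Dpq MP_2738db_nt_X.helper79.stmt_Sux
        MP_2738db_nt_X.helper37.stmt_SMQ))
    (MP_2738db_nt_U.helper85.stmt_Step MP_2738db_nt_U.helper93.stmt_ARL)
    (MP_2738db_nt_Z.helper40.stepG MP_2738db_nt_U.helper93.stmt_ARL)
    MP_2738db_nt_X.helper40.stmt_Twa final_WS

/-- Theorem FSHP for families of sets -/
def Stmt_FamHP : Prop :=
  ∀ ε : ℝ, 0 < ε → ∃ κ X₀ : ℝ, 0 < κ ∧
    ∀ (X N g r : ℕ) (H W : ℝ) (F : Finset (Finset ℕ)), X₀ ≤ X → 1 ≤ H →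
    Real.exp (H * Real.log (Real.log X) ^ (1 + ε)) ≤ N →
    W = Real.exp ((Real.log N / H) ^ (1 / (1 + ε))) → (F.card : ℝ) ≤ (N : ℝ) ^ κ →
    (∀ S ∈ F, (S.card : ℝ) ≤ H ∧ ∀ b ∈ S, 2 ≤ b ∧ b ≤ X) → 1 ≤ g → g * N + r ≤ X →
    ({x : ℕ | 1 ≤ x ∧ x ≤ N ∧ ∃ S ∈ F, ∃ a B m k p : ℕ,
      B ∈ Submonoid.closure (S : Set ℕ) ∧ Nat.Coprime B (g * x + r) ∧
      1 ≤ a ∧ 2 ≤ m ∧ 1 ≤ k ∧ p.Prime ∧ (p : ℝ) ≤ W ∧
      (p ∣ m ∨ Real.log B ≤ W * padicValNat p B ∨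
        ∃ b n : ℕ, B = b ^ n ∧ Real.log b ≤ W ∧
          (p ∣ g * x + r ∨ Real.log n ≤ W ∧ Real.log k ≤ W)) ∧
      (a ^ m + B = (g * x + r) ^ k ∨ B + (g * x + r) ^ k = a ^ m ∨
        (g * x + r) ^ k + a ^ m = B)}.ncard : ℝ) ≤ (N : ℝ) ^ (1 - κ)

theorem final_FamHP : Stmt_FamHP := by
  classical
  intro ε hε
  obtain ⟨κ, X₀, hκ, hX₀⟩ := final_FSHP ε hε
  refine ⟨κ / 2, X₀, by positivity, ?_⟩
  intro X N g r H W F hX hH hN hW hFc hF hg hgN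
  have hNr : (0 : ℝ) < N := lt_of_lt_of_le (Real.exp_pos _) hN
  have hFc' : (F.card : ℝ) ≤ (N : ℝ) ^ (κ / 2) := hFc
  have hfin : ∀ S, (ExcFHP N S g r W).Finite := by
    intro S
    apply (Finset.finite_toSet (Icc 1 N)).subset
    intro x hx
    rw [mem_coe, mem_Icc]
    exact ⟨hx.1, hx.2.1⟩
  set G : Finset ℕ → Finset ℕ := fun S => (hfin S).toFinset with hG
  have h1 : ∀ S ∈ F, ((G S).card : ℝ) ≤ (N : ℝ) ^ (1 - κ) := by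
    intro S hS
    have h2 := hX₀ X N g r H S hX hH hN (hF S hS).1 (hF S hS).2 hg hgN
    rw [← hW] at h2
    rwa [Set.ncard_eq_toFinset_card _ (hfin S)] at h2
  have key : ∀ T : Set ℕ, T ⊆ ↑(F.biUnion G) → (T.ncard : ℝ) ≤ (N : ℝ) ^ (1 - κ / 2) := by
    intro T hT
    have h3 := Set.ncard_le_ncard hT (Finset.finite_toSet _)
    rw [Set.ncard_coe_finset] at h3
    calc (T.ncard : ℝ) ≤ ((F.biUnion G).card : ℝ) := Nat.cast_le.2 h3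
      _ ≤ ∑ S ∈ F, ((G S).card : ℝ) := by
          exact_mod_cast card_biUnion_le
      _ ≤ ∑ _S ∈ F, (N : ℝ) ^ (1 - κ) := sum_le_sum h1
      _ = F.card * (N : ℝ) ^ (1 - κ) := by rw [sum_const, nsmul_eq_mul]
      _ ≤ (N : ℝ) ^ (κ / 2) * (N : ℝ) ^ (1 - κ) :=
          mul_le_mul_of_nonneg_right hFc' (Real.rpow_nonneg hNr.le _)
      _ = (N : ℝ) ^ (1 - κ / 2) := by rw [← Real.rpow_add hNr]; congr 1; ring
  apply key
  rintro x ⟨hx1, hxN, S, hS, hrest⟩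
  rw [mem_coe, mem_biUnion]
  refine ⟨S, hS, ?_⟩
  rw [hG]
  exact (hfin S).mem_toFinset.2 ⟨hx1, hxN, hrest⟩

end Pool.Agent.Work.MP_2738db_nt_S.helper1
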