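import Pool.Agent.Work.MP_2738db_nt_S_helper1.X0S
import Pool.Agent.Work.MP_2738db_nt_X_helper40.Main
import Pool.Agent.Work.MP_2738db_nt_S.Interface

/-!
Theorem FS: the monoid version of the flagship, from the sieve core `X0S`, Theorem WS and the two
logarithms theorems.
-/

set_option autoImplicit false

namespace Pool.Agent.Work.MP_2738db_nt_S.helper1

open Finset Filter
open Pool.Agent.Work.MP_2738db_nt_Z.helper40 (Stmt_StepG closure_prod exists_val)
open Pool.Agent.Work.MP_2738db_nt_X.helper40 (step_small NumF numericF)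
open Pool.Agent.Work.MP_2738db_nt_U.helper40 (ev_exp omega_le)

/-- the exceptional set of Theorem FS -/
def ExcFS (N : ℕ) (S : Finset ℕ) (g r : ℕ) (E : ℝ) : Set ℕ :=
  {x : ℕ | 1 ≤ x ∧ x ≤ N ∧
    ∃ a B m k : ℕ, B ∈ Submonoid.closure (S : Set ℕ) ∧ Nat.Coprime B (g * x + r) ∧
      1 ≤ a ∧ 2 ≤ m ∧ 1 ≤ k ∧
      ((∃ p : ℕ, p.Prime ∧ p ∣ m ∧ Real.log p ≤ E) ∨
        (∀ b ∈ S, ∃ p : ℕ, p.Prime ∧ p ∣ b ∧ Real.log p ≤ E) ∨
        (S.card = 1 ∧ ∃ p : ℕ, p.Prime ∧ p ∣ g * x + r ∧ Real.log p ≤ E)) ∧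
      (a ^ m + B = (g * x + r) ^ k ∨ B + (g * x + r) ^ k = a ^ m ∨
        (g * x + r) ^ k + a ^ m = B)}

/-- **Theorem FS** -/
def Stmt_FSX : Prop :=
  ∀ ε σ : ℝ, 0 < ε → 0 ≤ σ → σ + ε < 1 → ∃ κ X₀ : ℝ, 0 < κ ∧
    ∀ (X N g r : ℕ) (S : Finset ℕ), X₀ ≤ X →
    Real.exp (Real.log (Real.log X) ^ ((1 + ε) / (1 - σ))) ≤ N →
    (S.card : ℝ) ≤ (Real.log N) ^ σ → (∀ b ∈ S, 2 ≤ b ∧ b ≤ X) → 1 ≤ g → g * N + r ≤ X →
    ((ExcFS N S g r ((Real.log N) ^ (1 - σ - ε))).ncard : ℝ) ≤ (N : ℝ) ^ (1 - κ)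

/-- the bound for the prime exponent, all elements of `S` have a small prime factor -/
lemma stepG_small {C w U' W Lam : ℝ}
    (hsg : ∀ (a B c k l p : ℕ) (w U : ℝ), 2 ≤ a → 1 ≤ B →
      2 ≤ c → Nat.Coprime B c → 1 ≤ k → l.Prime → p.Prime → 2 ≤ w → (p : ℝ) ≤ w → 1 ≤ U →
      Real.log c ≤ U → Real.log B ≤ (padicValNat p B : ℝ) * U →
      C * w ^ 2 * U ^ 2 * (1 + Real.log l) ^ 2 < l →
      a ^ l + B ≠ c ^ k ∧ B + c ^ k ≠ a ^ l ∧ c ^ k + a ^ l ≠ B)
    (hC : 1 ≤ C) (hU1 : 1 ≤ U') (hw2 : 2 ≤ w) (hVW : w * U' ≤ W)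
    (hi : ∀ l : ℕ, Lam < l → C * W ^ 2 * (1 + Real.log l) ^ 2 < l)
    {a B c m k p : ℕ} (ha : 2 ≤ a) (hB : 1 ≤ B) (hc : 2 ≤ c) (hBc : Nat.Coprime B c) (hm : 2 ≤ m)
    (hk : 1 ≤ k) (hcV : Real.log c ≤ U')
    (hp : p.Prime) (hpw : (p : ℝ) ≤ w) (hval : Real.log B ≤ (padicValNat p B : ℝ) * U')
    (heq : a ^ m + B = c ^ k ∨ B + c ^ k = a ^ m ∨ c ^ k + a ^ m = B) :
    (m.minFac : ℝ) ≤ Lam := by
  by_contra hcon
  rw [not_le] at hcon
  have hl := Nat.minFac_prime (show m ≠ 1 by omega)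
  have hV0 : 0 < U' := by linarith
  obtain ⟨m', hm'⟩ := Nat.minFac_dvd m
  set l := m.minFac with hldef
  have ham : a ^ m = (a ^ m') ^ l := by
    conv_lhs => rw [hm', mul_comm, pow_mul]
  have hm0 : m' ≠ 0 := by
    rintro rfl
    rw [mul_zero] at hm'; omega
  have ha2 : 2 ≤ a ^ m' := by
    calc 2 ≤ a := by omega
      _ = a ^ 1 := (pow_one a).symm
      _ ≤ a ^ m' := Nat.pow_le_pow_right (by omega) (by omega)
  have hthr := hi l hcon
  have h := hsg (a ^ m') B c k l p w U' ha2 hB hc hBc hk hl hp hw2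
    hpw hU1 hcV hval (by
      refine lt_of_le_of_lt ?_ hthr
      calc C * w ^ 2 * U' ^ 2 * (1 + Real.log l) ^ 2 = C * (w * U') ^ 2 * (1 + Real.log l) ^ 2 := by
            ring
        _ ≤ C * W ^ 2 * (1 + Real.log l) ^ 2 := by gcongr)
  rw [ham] at heq
  rcases heq with h1 | h1 | h1
  · exact h.1 h1
  · exact h.2.1 h1
  · exact h.2.2 h1

/-- numerical facts -/
structure NumFS (δ α B C CW κ : ℝ) (u : ℝ) : Prop where
  num : NumF δ B C 1 CW κ (u ^ α)
  u1 : 1 ≤ u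
  uκ : 2 / κ ≤ u
  uv : u ≤ Real.exp ((u ^ α) ^ (1 - δ))

lemma numericFS (δ α B C CW κ : ℝ) (hδ0 : 0 < δ) (hδ1 : δ < 1) (hα0 : 0 < α) (hCW : 1 ≤ CW) :
    ∃ u0 : ℝ, ∀ u : ℝ, u0 ≤ u → NumFS δ α B C CW κ u := by
  obtain ⟨v0, hv0⟩ := numericF δ B C 1 CW κ hδ0 hδ1 hCW
  have hs : 0 < α * (1 - δ) := mul_pos hα0 (by linarith)
  have e1 := (tendsto_rpow_atTop hα0).eventually_ge_atTop v0
  have e2 := ev_exp 1 1 hs (show (0 : ℝ) < 1 by norm_num)
  have e3 := eventually_ge_atTop (max 1 (2 / κ))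
  obtain ⟨u0, hu0⟩ := eventually_atTop.mp (e1.and (e2.and e3))
  refine ⟨u0, fun u hu => ?_⟩
  obtain ⟨f1, f2, f3⟩ := hu0 u hu
  have hu1 : 1 ≤ u := (le_max_left _ _).trans f3
  refine ⟨hv0 _ f1, hu1, (le_max_right _ _).trans f3, ?_⟩
  rw [Real.rpow_one, one_mul, one_mul] at f2
  refine f2.trans (le_of_eq ?_)
  rw [← Real.rpow_mul (by linarith)]

theorem stmt_FSX (hX0 : Stmt_X0S) (hSt : MP_2738db_nt_U.Stmt_Step) (hSG : Stmt_StepG)
    (hWS : Stmt_WS) : Stmt_FSX := by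
  classical
  intro ε σ hε0 hσ0 hσε
  set α : ℝ := 1 - σ with hα
  have hα0 : 0 < α := by rw [hα]; linarith
  have hα1 : α ≤ 1 := by rw [hα]; linarith
  set δ : ℝ := ε / (1 + ε) with hδ
  have hε1 : (0 : ℝ) < 1 + ε := by linarith
  have hδ0 : 0 < δ := by positivity
  have hδ1 : δ < 1 := by rw [hδ, div_lt_one hε1]; linarith
  have hδε : δ ≤ ε := by
    rw [hδ, div_le_iff₀ hε1]; nlinarith
  have he2 : (1 + ε) / α * (α * (1 - δ)) = 1 := by rw [hδ]; field_simp; ring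
  obtain ⟨C1, hC1, hst⟩ := hSt
  obtain ⟨C2, hC2, hsg⟩ := hSG
  obtain ⟨CW₀, hCW₀, hws⟩ := hWS
  set CW : ℝ := max CW₀ 4 with hCW
  have hCW4 : 4 ≤ CW := le_max_right _ _
  obtain ⟨κ₀, X₁, hκ₀, hκ₀1, hcore⟩ := hX0 (δ / 4) σ (by linarith) hσ0 (by linarith)
  obtain ⟨u0, hu0⟩ := numericFS δ α 4 (max C1 C2) CW κ₀ hδ0 hδ1 hα0 (by linarith)
  refine ⟨κ₀ / 2, max X₁ (Real.exp (Real.exp (max 1 u0))), by positivity, ?_⟩
  intro X N g r S hX hN hS hSb hg hgN
  -- sizes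
  have hXe : Real.exp (Real.exp (max 1 u0)) ≤ X := (le_max_right _ _).trans hX
  have hXr : (0 : ℝ) < X := lt_of_lt_of_le (Real.exp_pos _) hXe
  have hNr : (0 : ℝ) < N := lt_of_lt_of_le (Real.exp_pos _) hN
  have hN0 : 0 < N := by exact_mod_cast hNr
  set V := Real.log X with hV
  set u := Real.log N with hu
  have hV1 : Real.exp (max 1 u0) ≤ V := by
    rw [hV, Real.le_log_iff_exp_le hXr]; exact hXe
  have hV0 : 0 < V := lt_of_lt_of_le (Real.exp_pos _) hV1
  have hV1' : 1 ≤ V := by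
    have := Real.add_one_le_exp (max 1 u0)
    have := le_max_left 1 u0
    linarith
  have hlV : max 1 u0 ≤ Real.log V := by
    rw [Real.le_log_iff_exp_le hV0]; exact hV1
  have hlV1 : 1 ≤ Real.log V := (le_max_left _ _).trans hlV
  have hlV0 : 0 < Real.log V := by linarith
  have hu1' : Real.log V ^ ((1 + ε) / α) ≤ u := by
    rw [hu, Real.le_log_iff_exp_le hNr]; exact hN
  have hex1 : 1 ≤ (1 + ε) / α := by
    rw [le_div_iff₀ hα0]; linarith
  have huu : u0 ≤ u := by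
    refine ((le_max_right _ _).trans hlV).trans (le_trans ?_ hu1')
    calc Real.log V = Real.log V ^ (1 : ℝ) := (Real.rpow_one _).symm
      _ ≤ Real.log V ^ ((1 + ε) / α) := Real.rpow_le_rpow_of_exponent_le hlV1 hex1
  have hNF := hu0 u huu
  have num := hNF.num
  have hu1 := hNF.u1
  have hu0' : 0 < u := by linarith
  set v := u ^ α with hv
  have hv1 : 1 ≤ v := num.u1
  have hVP : V ≤ Real.exp (v ^ (1 - δ)) := by
    rw [← Real.log_le_iff_le_exp hV0]
    calc Real.log V = (Real.log V ^ ((1 + ε) / α)) ^ (α * (1 - δ)) := by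
          rw [← Real.rpow_mul hlV0.le, he2, Real.rpow_one]
      _ ≤ u ^ (α * (1 - δ)) := Real.rpow_le_rpow (Real.rpow_nonneg hlV0.le _) hu1'
          (mul_nonneg hα0.le (by linarith))
      _ = v ^ (1 - δ) := by rw [hv, ← Real.rpow_mul hu0'.le]
  have hP1 := num.P1
  have hσ1' : u ^ σ ≤ u := by
    calc u ^ σ ≤ u ^ (1 : ℝ) := Real.rpow_le_rpow_of_exponent_le hu1 (by linarith)
      _ = u := Real.rpow_one u
  have hSu : (S.card : ℝ) ≤ u := hS.trans hσ1'
  have hlog : ∀ z : ℕ, 1 ≤ z → z ≤ X → Real.log z ≤ V := by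
    intro z h1 h2
    exact Real.log_le_log (by exact_mod_cast h1) (by exact_mod_cast h2)
  -- the small primes
  have hEP : u ^ (1 - σ - ε) ≤ v ^ (1 - δ) := by
    rw [hv, ← Real.rpow_mul hu0'.le]
    apply Real.rpow_le_rpow_of_exponent_le hu1
    rw [← hα]
    nlinarith
  have hML : v ^ (1 - δ) ≤ v ^ (1 - 3 * δ / 8) :=
    Real.rpow_le_rpow_of_exponent_le hv1 (by linarith)
  set w := Real.exp (v ^ (1 - δ)) with hw
  set W := Real.exp (v ^ (1 - δ / 2)) with hW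
  set Lam := Real.exp (v ^ (1 - 3 * δ / 8)) with hLam
  have hw2 : 2 ≤ w := by
    have := Real.add_one_le_exp (v ^ (1 - δ))
    linarith
  have hwL : w ≤ Lam := Real.exp_le_exp.2 hML
  have huw : u ≤ w := hNF.uv
  set U' := u * V with hU'
  have hU'1 : 1 ≤ U' := by
    rw [hU']; nlinarith
  have hVU' : V ≤ U' := by
    rw [hU']; nlinarith
  have hwU : w * U' ≤ W := by
    have h1 : U' ≤ w * w := mul_le_mul huw hVP hV0.le (Real.exp_pos _).le
    calc w * U' ≤ w * (w * w) := mul_le_mul_of_nonneg_left h1 (Real.exp_pos _).le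
      _ = Real.exp (3 * v ^ (1 - δ)) := by
          rw [hw, ← Real.exp_add, ← Real.exp_add]; congr 1; ring
      _ ≤ Real.exp (4 * v ^ (1 - δ)) := Real.exp_le_exp.2 (by linarith)
      _ ≤ W := num.hB
  have hwV : w * V ≤ W := (mul_le_mul_of_nonneg_left hVU' (Real.exp_pos _).le).trans hwU
  have hi : ∀ C0 : ℝ, C0 ≤ max C1 C2 → ∀ l : ℕ, Lam < l → C0 * W ^ 2 * (1 + Real.log l) ^ 2 < l := by
    intro C0 hC0 l hl
    refine lt_of_le_of_lt ?_ (num.hi l hl)
    gcongr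
  have hbpos : ∀ b ∈ S, 0 < b := fun b hb => by have := (hSb b hb).1; omega
  -- inclusion into the set of the core
  have hsub : ExcFS N S g r (u ^ (1 - σ - ε)) ⊆ {1} ∪ ExcXS N S g r (u ^ (α * (1 - δ / 4)))
      (Real.exp (u ^ (α * (1 - δ / 4)))) := by
    intro x hx
    obtain ⟨hx1, hxN, a, B, m, k, hBS, hBc, ha, hm, hk, hcond, heq⟩ := hx
    by_cases hc1 : g * x + r = 1
    · left
      have h2 : x ≤ g * x := Nat.le_mul_of_pos_left x hg
      rw [Set.mem_singleton_iff]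
      omega
    right
    have hc2 : 2 ≤ g * x + r := by
      have h2 : x ≤ g * x := Nat.le_mul_of_pos_left x hg
      omega
    have hcX : g * x + r ≤ X := by
      have : g * x ≤ g * N := Nat.mul_le_mul_left g hxN
      omega
    have hcV := hlog (g * x + r) (by omega) hcX
    have hB1 : 1 ≤ B := by
      obtain ⟨n, hn⟩ := closure_prod hBS
      rw [hn]
      exact Finset.prod_pos (fun b hb => pow_pos (hbpos b hb) _)
    have hexpE : u ^ (α * (1 - δ / 4)) = v ^ (1 - δ / 4) := by rw [hv, ← Real.rpow_mul hu0'.le]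
    set c := g * x + r with hc
    -- the prime exponent
    have hls : ∃ l s : ℕ, l.Prime ∧ (l : ℝ) ≤ Lam ∧ 1 ≤ s ∧ a ^ m = s ^ l := by
      have hfromlog : ∀ p : ℕ, p.Prime → Real.log p ≤ u ^ (1 - σ - ε) → (p : ℝ) ≤ w := by
        intro p hp hpl
        rw [hw, ← Real.log_le_iff_le_exp (by exact_mod_cast hp.pos)]
        exact hpl.trans hEP
      rcases hcond with ⟨p, hp, ⟨m', hm'⟩, hpw⟩ | hcond
      · exact ⟨p, a ^ m', hp, (hfromlog p hp hpw).trans hwL, Nat.one_le_pow _ _ (by omega),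
          by rw [hm', mul_comm, pow_mul]⟩
      by_cases ha1 : a = 1
      · exact ⟨2, 1, Nat.prime_two, by push_cast; linarith, le_rfl, by rw [ha1]; simp⟩
      have ha2 : 2 ≤ a := by omega
      have hlp := Nat.minFac_prime (show m ≠ 1 by omega)
      obtain ⟨m', hm'⟩ := Nat.minFac_dvd m
      refine ⟨m.minFac, a ^ m', hlp, ?_, Nat.one_le_pow _ _ (by omega),
        by conv_lhs => rw [hm', mul_comm, pow_mul]⟩
      rcases hcond with hcA | ⟨hcard, p, hp, hpc, hpw⟩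
      · obtain ⟨p, hp, hpw, hval⟩ := exists_val hBS (w := w) (V := V) hw2 hV0.le
          (fun b hb => ⟨(hSb b hb).1, hlog b (hbpos b hb) (hSb b hb).2⟩)
          (fun b hb => by
            obtain ⟨p, hp, hpb, hpl⟩ := hcA b hb
            exact ⟨p, hp, hpb, hfromlog p hp hpl⟩)
        refine stepG_small hsg hC2 hU'1 hw2 hwU (hi C2 (le_max_right _ _)) ha2 hB1 hc2 hBc hm hk
          (hcV.trans hVU') hp hpw (hval.trans ?_) heq
        apply mul_le_mul_of_nonneg_left _ (Nat.cast_nonneg _)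
        exact mul_le_mul_of_nonneg_right hSu hV0.le
      · obtain ⟨b, hb⟩ := Finset.card_eq_one.mp hcard
        obtain ⟨n, hn⟩ := closure_prod hBS
        rw [hb, Finset.prod_singleton] at hn
        have hbS : b ∈ S := by rw [hb]; exact mem_singleton_self b
        by_cases hn0 : n b = 0
        · rw [hn0, pow_zero] at hn
          refine stepG_small hsg hC2 hU'1 hw2 hwU (hi C2 (le_max_right _ _)) ha2 hB1 hc2 hBc hm hk
            (hcV.trans hVU') Nat.prime_two (by exact_mod_cast hw2) ?_ heq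
          rw [hn]
          simp
        · have hn1 : 1 ≤ n b := by omega
          have hbc : Nat.Coprime b c := by
            rw [hn] at hBc
            exact (Nat.coprime_pow_left_iff (by omega) _ _).mp hBc
          rw [hn] at heq
          exact step_small hst hC1 hV1' hw2 hwV (hi C1 (le_max_left _ _)) ha2 (hSb b hbS).1 hc2
            hbc hm hn1 hk (hlog b (hbpos b hbS) (hSb b hbS).2) hcV hp (Dvd.dvd.mul_left hpc b)
            (hfromlog p hp hpw) heq
    obtain ⟨l, s, hlp, hlL, hs1, has⟩ := hls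
    rw [has] at heq
    -- the bound for `k`
    have hTcard : ((({c} : Finset ℕ)).card : ℝ) ≤ Lam := by
      rw [card_singleton]
      push_cast
      linarith
    have hkc : c ^ k ∈ Submonoid.closure ((({c} : Finset ℕ) : Set ℕ)) :=
      pow_mem (Submonoid.subset_closure (by simp)) k
    have h1 := hws S {c} l s B (c ^ k) Lam hlp
      (fun b hb => ⟨(hSb b hb).1, (hlog b (hbpos b hb) (hSb b hb).2).trans (hVP.trans hwL)⟩)
      (fun d hd => by
        rw [mem_singleton] at hd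
        rw [hd]
        exact ⟨hc2, hcV.trans (hVP.trans hwL)⟩)
      (hSu.trans (huw.trans hwL)) hTcard hBS hkc (Nat.Coprime.pow_right k hBc) hs1 heq
      (by linarith) hlL
    have hcr : (2 : ℝ) ≤ c := by exact_mod_cast hc2
    have hlogc : (1 : ℝ) / 2 ≤ Real.log c := by
      have h2 : Real.log 2 ≤ Real.log c := Real.log_le_log (by norm_num) hcr
      have := Real.log_two_gt_d9
      linarith
    have hBr : (1 : ℝ) ≤ B := by exact_mod_cast hB1
    have hkr : (1 : ℝ) ≤ k := by exact_mod_cast hk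
    have h2 : (k : ℝ) * Real.log c ≤ Real.exp (Lam ^ CW₀) := by
      refine le_trans ?_ h1
      push_cast
      rw [Real.log_mul (by positivity) (by positivity), Real.log_pow]
      have := Real.log_nonneg hBr
      linarith
    have h3 : (k : ℝ) ≤ 2 * Real.exp (Lam ^ CW₀) := by nlinarith
    have hL1 : 1 ≤ Lam := by linarith
    have hLC : 1 ≤ Lam ^ CW₀ := Real.one_le_rpow hL1 (by linarith)
    have h4 : Real.log k ≤ 2 * Lam ^ CW₀ := by
      have h5 := Real.log_le_log (by linarith) h3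
      rw [Real.log_mul (by norm_num) (Real.exp_pos _).ne', Real.log_exp] at h5
      have := Real.log_two_lt_d9
      linarith
    have hω : (k.primeFactors.card : ℝ) ≤ Real.exp (v ^ (1 - δ / 4)) := by
      have h5 := omega_le (show 0 < k from hk)
      have h6 : Lam ^ CW₀ ≤ (Lam * Real.exp (2 * v ^ (1 - δ))) ^ CW := by
        have h7 : Lam ≤ Lam * Real.exp (2 * v ^ (1 - δ)) :=
          le_mul_of_one_le_right (by linarith) (Real.one_le_exp (by linarith))
        calc Lam ^ CW₀ ≤ Lam ^ CW := Real.rpow_le_rpow_of_exponent_le hL1 (le_max_left _ _)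
          _ ≤ _ := Real.rpow_le_rpow (by linarith) h7 (by linarith)
      have h8 := num.hW
      have h9 : 0 ≤ (Lam * Real.exp (2 * v ^ (1 - δ))) ^ CW := by positivity
      have h10 : 4 * Lam ^ CW₀ ≤ 2 * (CW * (Lam * Real.exp (2 * v ^ (1 - δ))) ^ CW) := by
        nlinarith
      linarith
    refine ⟨hx1, hxN, s, B, l, k, hBS, hBc, hs1, hlp.two_le, hk, ⟨l, hlp, dvd_rfl, ?_⟩, ?_, heq⟩
    · rw [hexpE]
      refine le_trans ?_ num.LQ
      rw [Real.log_le_iff_le_exp (by exact_mod_cast hlp.pos)]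
      exact hlL
    · rw [hexpE]
      exact hω
  have hfin : (ExcXS N S g r (u ^ (α * (1 - δ / 4))) (Real.exp (u ^ (α * (1 - δ / 4))))).Finite := by
    apply (Finset.finite_toSet (Icc 1 N)).subset
    intro x hx
    rw [mem_coe, mem_Icc]
    exact ⟨hx.1, hx.2.1⟩
  have hcr := hcore X N g r S ((le_max_left _ _).trans hX) (by
    refine le_trans ?_ hN
    apply Real.exp_le_exp.2
    apply Real.rpow_le_rpow_of_exponent_le hlV1
    apply div_le_div_of_nonneg_right _ hα0.le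
    linarith) hS hSb hg hgN
  have h1 : (ExcFS N S g r (u ^ (1 - σ - ε))).ncard ≤ 1 + (ExcXS N S g r (u ^ (α * (1 - δ / 4)))
      (Real.exp (u ^ (α * (1 - δ / 4))))).ncard := by
    refine (Set.ncard_le_ncard hsub ((Set.finite_singleton 1).union hfin)).trans ?_
    refine (Set.ncard_union_le _ _).trans ?_
    rw [Set.ncard_singleton]
  have h2 : ((ExcFS N S g r (u ^ (1 - σ - ε))).ncard : ℝ) ≤ 1 + ((ExcXS N S g r
      (u ^ (α * (1 - δ / 4))) (Real.exp (u ^ (α * (1 - δ / 4))))).ncard : ℝ) := by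
    exact_mod_cast h1
  have hN1 : (1 : ℝ) ≤ N := by exact_mod_cast hN0
  have h3 : (1 : ℝ) ≤ (N : ℝ) ^ (1 - κ₀) := Real.one_le_rpow hN1 (by linarith)
  have h4 : (2 : ℝ) ≤ (N : ℝ) ^ (κ₀ / 2) := by
    rw [Real.rpow_def_of_pos hNr]
    have h5 : 1 ≤ Real.log N * (κ₀ / 2) := by
      have h6 := hNF.uκ
      rw [div_le_iff₀ hκ₀] at h6
      linarith
    have := Real.add_one_le_exp (Real.log N * (κ₀ / 2))
    linarith
  have h5 : (N : ℝ) ^ (1 - κ₀ / 2) = (N : ℝ) ^ (1 - κ₀) * (N : ℝ) ^ (κ₀ / 2) := by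
    rw [← Real.rpow_add hNr]; congr 1; ring
  rw [h5]
  nlinarith

end Pool.Agent.Work.MP_2738db_nt_S.helper1
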