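import Pool.Agent.Work.MP_2738db_nt_S_helper1.X0H
import Pool.Agent.Work.MP_2738db_nt_S_helper1.FS

/-!
Theorem FSH: the monoid theorem with at most `H` generators, `N ≥ exp (H (log log X)^(1+ε))`,
for families of at most `N ^ κ` sets of generators.
-/

set_option autoImplicit false

namespace Pool.Agent.Work.MP_2738db_nt_S.helper1

open Finset Filter
open Pool.Agent.Work.MP_2738db_nt_Z.helper40 (Stmt_StepG closure_prod exists_val)
open Pool.Agent.Work.MP_2738db_nt_X.helper40 (step_small NumF numericF)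
open Pool.Agent.Work.MP_2738db_nt_U.helper40 (ev_exp omega_le)

/-- the exceptional set of Theorem FSH -/
def ExcFH (N : ℕ) (S : Finset ℕ) (g r : ℕ) (W : ℝ) : Set ℕ :=
  {x : ℕ | 1 ≤ x ∧ x ≤ N ∧
    ∃ a B m k p : ℕ, B ∈ Submonoid.closure (S : Set ℕ) ∧ Nat.Coprime B (g * x + r) ∧
      1 ≤ a ∧ 2 ≤ m ∧ 1 ≤ k ∧ p.Prime ∧ (p : ℝ) ≤ W ∧
      (p ∣ m ∨ Real.log B ≤ W * padicValNat p B ∨
        (p ∣ g * x + r ∧ ∃ b n : ℕ, B = b ^ n ∧ Real.log b ≤ W)) ∧
      (a ^ m + B = (g * x + r) ^ k ∨ B + (g * x + r) ^ k = a ^ m ∨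
        (g * x + r) ^ k + a ^ m = B)}

/-- **Theorem FSH** for one set -/
def Stmt_FSH : Prop :=
  ∀ ε : ℝ, 0 < ε → ∃ κ X₀ : ℝ, 0 < κ ∧
    ∀ (X N g r : ℕ) (H : ℝ) (S : Finset ℕ), X₀ ≤ X → 1 ≤ H →
    Real.exp (H * Real.log (Real.log X) ^ (1 + ε)) ≤ N →
    (S.card : ℝ) ≤ H → (∀ b ∈ S, 2 ≤ b ∧ b ≤ X) → 1 ≤ g → g * N + r ≤ X →
    ((ExcFH N S g r (Real.exp ((Real.log N / H) ^ (1 / (1 + ε))))).ncard : ℝ) ≤ (N : ℝ) ^ (1 - κ)

theorem stmt_FSH (hX0 : Stmt_X0H) (hSt : MP_2738db_nt_U.Stmt_Step) (hSG : Stmt_StepG)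
    (hWS : Stmt_WS) : Stmt_FSH := by
  classical
  intro ε hε0
  set δ : ℝ := ε / (1 + ε) with hδ
  have hε1 : (0 : ℝ) < 1 + ε := by linarith
  have hδ0 : 0 < δ := by positivity
  have hδ1 : δ < 1 := by rw [hδ, div_lt_one hε1]; linarith
  have hδε : δ ≤ ε := by
    rw [hδ, div_le_iff₀ hε1]; nlinarith
  have he2 : (1 + ε) * (1 - δ) = 1 := by rw [hδ]; field_simp; ring
  have he1 : 1 / (1 + ε) = 1 - δ := by rw [hδ]; field_simp; ring
  rw [he1]
  obtain ⟨C1, hC1, hst⟩ := hSt
  obtain ⟨C2, hC2, hsg⟩ := hSG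
  obtain ⟨CW₀, hCW₀, hws⟩ := hWS
  set CW : ℝ := max CW₀ 4 with hCW
  have hCW4 : 4 ≤ CW := le_max_right _ _
  obtain ⟨κ₀, X₁, hκ₀, hκ₀1, hcore⟩ := hX0 (δ / 4) (by linarith)
  obtain ⟨u0, hu0⟩ := numericF δ 4 (max C1 C2) 1 CW κ₀ hδ0 hδ1 (by linarith)
  refine ⟨κ₀ / 2, max X₁ (Real.exp (Real.exp (max 1 u0))), by positivity, ?_⟩
  intro X N g r H S hX hH hN hS hSb hg hgN
  have hH0 : 0 < H := by linarith
  -- sizes
  have hXe : Real.exp (Real.exp (max 1 u0)) ≤ X := (le_max_right _ _).trans hX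
  have hXr : (0 : ℝ) < X := lt_of_lt_of_le (Real.exp_pos _) hXe
  have hNr : (0 : ℝ) < N := lt_of_lt_of_le (Real.exp_pos _) hN
  have hN0 : 0 < N := by exact_mod_cast hNr
  set V := Real.log X with hV
  set u := Real.log N with hu
  have hV1 : Real.exp (max 1 u0) ≤ V := by
    rw [hV, Real.le_log_iff_exp_le hXr]; exact hXe
  have hV0 : 0 < V := lt_of_lt_of_le (Real.exp_pos _) hV1
  have hV1' : 1 ≤ V := by
    have := Real.add_one_le_exp (max 1 u0)
    have := le_max_left 1 u0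
    linarith
  have hlV : max 1 u0 ≤ Real.log V := by
    rw [Real.le_log_iff_exp_le hV0]; exact hV1
  have hlV1 : 1 ≤ Real.log V := (le_max_left _ _).trans hlV
  have hlV0 : 0 < Real.log V := by linarith
  have hu1' : H * Real.log V ^ (1 + ε) ≤ u := by
    rw [hu, Real.le_log_iff_exp_le hNr]; exact hN
  set v := u / H with hv
  have hvV : Real.log V ^ (1 + ε) ≤ v := by
    rw [hv, le_div_iff₀ hH0]; linarith
  have hvV1 : Real.log V ≤ v := by
    refine le_trans ?_ hvV
    calc Real.log V = Real.log V ^ (1 : ℝ) := (Real.rpow_one _).symm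
      _ ≤ Real.log V ^ (1 + ε) := Real.rpow_le_rpow_of_exponent_le hlV1 (by linarith)
  have huu : u0 ≤ v := ((le_max_right _ _).trans hlV).trans hvV1
  have num := hu0 v huu
  have hv1 : 1 ≤ v := num.u1
  have hv0 : 0 < v := by linarith
  have huv : u = H * v := by rw [hv]; field_simp
  have hvu : v ≤ u := by rw [huv]; nlinarith
  have hHu : H ≤ u := by rw [huv]; nlinarith
  have hu1 : 1 ≤ u := by linarith
  have hu0' : 0 < u := by linarith
  have hVP : V ≤ Real.exp (v ^ (1 - δ)) := by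
    rw [← Real.log_le_iff_le_exp hV0]
    calc Real.log V = (Real.log V ^ (1 + ε)) ^ (1 - δ) := by
          rw [← Real.rpow_mul hlV0.le, he2, Real.rpow_one]
      _ ≤ v ^ (1 - δ) := Real.rpow_le_rpow (Real.rpow_nonneg hlV0.le _) hvV (by linarith)
  have hP1 := num.P1
  have hSu : (S.card : ℝ) ≤ u := hS.trans hHu
  have hlog : ∀ z : ℕ, 1 ≤ z → z ≤ X → Real.log z ≤ V := by
    intro z h1 h2
    exact Real.log_le_log (by exact_mod_cast h1) (by exact_mod_cast h2)
  have hNX : N ≤ X := by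
    have : N ≤ g * N := Nat.le_mul_of_pos_left N hg
    omega
  have huV : u ≤ V := Real.log_le_log hNr (by exact_mod_cast hNX)
  -- the small primes
  have hML : v ^ (1 - δ) ≤ v ^ (1 - 3 * δ / 8) :=
    Real.rpow_le_rpow_of_exponent_le hv1 (by linarith)
  set w := Real.exp (v ^ (1 - δ)) with hw
  set W := Real.exp (v ^ (1 - δ / 2)) with hW
  set Lam := Real.exp (v ^ (1 - 3 * δ / 8)) with hLam
  have hw2 : 2 ≤ w := by
    have := Real.add_one_le_exp (v ^ (1 - δ))
    linarith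
  have hwL : w ≤ Lam := Real.exp_le_exp.2 hML
  have huw : u ≤ w := huV.trans hVP
  have hwU : w * w ≤ W := by
    calc w * w = Real.exp (2 * v ^ (1 - δ)) := by
          rw [hw, ← Real.exp_add]; congr 1; ring
      _ ≤ Real.exp (4 * v ^ (1 - δ)) := Real.exp_le_exp.2 (by linarith)
      _ ≤ W := num.hB
  have hi : ∀ C0 : ℝ, C0 ≤ max C1 C2 → ∀ l : ℕ, Lam < l → C0 * W ^ 2 * (1 + Real.log l) ^ 2 < l := by
    intro C0 hC0 l hl
    refine lt_of_le_of_lt ?_ (num.hi l hl)
    gcongr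
  have hbpos : ∀ b ∈ S, 0 < b := fun b hb => by have := (hSb b hb).1; omega
  -- inclusion into the set of the core
  have hsub : ExcFH N S g r w ⊆ {1} ∪ ExcXS N S g r (v ^ (1 - δ / 4))
      (Real.exp (v ^ (1 - δ / 4))) := by
    intro x hx
    obtain ⟨hx1, hxN, a, B, m, k, p, hBS, hBc, ha, hm, hk, hp, hpw, hcond, heq⟩ := hx
    by_cases hc1 : g * x + r = 1
    · left
      have h2 : x ≤ g * x := Nat.le_mul_of_pos_left x hg
      rw [Set.mem_singleton_iff]
      omega
    right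
    have hc2 : 2 ≤ g * x + r := by
      have h2 : x ≤ g * x := Nat.le_mul_of_pos_left x hg
      omega
    have hcX : g * x + r ≤ X := by
      have : g * x ≤ g * N := Nat.mul_le_mul_left g hxN
      omega
    have hcV := hlog (g * x + r) (by omega) hcX
    have hB1 : 1 ≤ B := by
      obtain ⟨n, hn⟩ := closure_prod hBS
      rw [hn]
      exact Finset.prod_pos (fun b hb => pow_pos (hbpos b hb) _)
    set c := g * x + r with hc
    -- the prime exponent
    have hls : ∃ l s : ℕ, l.Prime ∧ (l : ℝ) ≤ Lam ∧ 1 ≤ s ∧ a ^ m = s ^ l := by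
      by_cases ha1 : a = 1
      · exact ⟨2, 1, Nat.prime_two, by push_cast; linarith, le_rfl, by rw [ha1]; simp⟩
      have ha2 : 2 ≤ a := by omega
      have hlp := Nat.minFac_prime (show m ≠ 1 by omega)
      rcases hcond with ⟨m', hm'⟩ | hcond
      · exact ⟨p, a ^ m', hp, hpw.trans hwL, Nat.one_le_pow _ _ (by omega),
          by rw [hm', mul_comm, pow_mul]⟩
      obtain ⟨m', hm'⟩ := Nat.minFac_dvd m
      refine ⟨m.minFac, a ^ m', hlp, ?_, Nat.one_le_pow _ _ (by omega),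
        by conv_lhs => rw [hm', mul_comm, pow_mul]⟩
      rcases hcond with hval | ⟨hpc, b, n, hBn, hbw⟩
      · refine stepG_small hsg hC2 (by linarith) hw2 hwU (hi C2 (le_max_right _ _)) ha2 hB1 hc2
          hBc hm hk (hcV.trans hVP) hp hpw ?_ heq
        rw [mul_comm]; exact hval
      · by_cases hB1' : B = 1
        · refine stepG_small hsg hC2 (by linarith) hw2 hwU (hi C2 (le_max_right _ _)) ha2 hB1
            hc2 hBc hm hk (hcV.trans hVP) hp hpw ?_ heq
          rw [hB1']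
          simp
        · have hn1 : 1 ≤ n := by
            rcases Nat.eq_zero_or_pos n with h | h
            · exact absurd (by rw [hBn, h, pow_zero]) hB1'
            · exact h
          have hb2 : 2 ≤ b := by
            rcases Nat.lt_or_ge b 2 with h | h
            · exfalso
              interval_cases b
              · rw [zero_pow (by omega)] at hBn; omega
              · rw [one_pow] at hBn; exact hB1' hBn
            · exact h
          have hbc : Nat.Coprime b c := by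
            rw [hBn] at hBc
            exact (Nat.coprime_pow_left_iff (by omega) _ _).mp hBc
          rw [hBn] at heq
          exact step_small hst hC1 (by linarith) hw2 hwU (hi C1 (le_max_left _ _)) ha2 hb2 hc2
            hbc hm hn1 hk hbw (hcV.trans hVP) hp (Dvd.dvd.mul_left hpc b) hpw heq
    obtain ⟨l, s, hlp, hlL, hs1, has⟩ := hls
    rw [has] at heq
    -- the bound for `k`
    have hTcard : ((({c} : Finset ℕ)).card : ℝ) ≤ Lam := by
      rw [card_singleton]
      push_cast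
      linarith
    have hkc : c ^ k ∈ Submonoid.closure ((({c} : Finset ℕ) : Set ℕ)) :=
      pow_mem (Submonoid.subset_closure (by simp)) k
    have h1 := hws S {c} l s B (c ^ k) Lam hlp
      (fun b hb => ⟨(hSb b hb).1, (hlog b (hbpos b hb) (hSb b hb).2).trans (hVP.trans hwL)⟩)
      (fun d hd => by
        rw [mem_singleton] at hd
        rw [hd]
        exact ⟨hc2, hcV.trans (hVP.trans hwL)⟩)
      (hSu.trans (huw.trans hwL)) hTcard hBS hkc (Nat.Coprime.pow_right k hBc) hs1 heq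
      (by linarith) hlL
    have hcr : (2 : ℝ) ≤ c := by exact_mod_cast hc2
    have hlogc : (1 : ℝ) / 2 ≤ Real.log c := by
      have h2 : Real.log 2 ≤ Real.log c := Real.log_le_log (by norm_num) hcr
      have := Real.log_two_gt_d9
      linarith
    have hBr : (1 : ℝ) ≤ B := by exact_mod_cast hB1
    have hkr : (1 : ℝ) ≤ k := by exact_mod_cast hk
    have h2 : (k : ℝ) * Real.log c ≤ Real.exp (Lam ^ CW₀) := by
      refine le_trans ?_ h1
      push_cast
      rw [Real.log_mul (by positivity) (by positivity), Real.log_pow]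
      have := Real.log_nonneg hBr
      linarith
    have h3 : (k : ℝ) ≤ 2 * Real.exp (Lam ^ CW₀) := by nlinarith
    have hL1 : 1 ≤ Lam := by linarith
    have hLC : 1 ≤ Lam ^ CW₀ := Real.one_le_rpow hL1 (by linarith)
    have h4 : Real.log k ≤ 2 * Lam ^ CW₀ := by
      have h5 := Real.log_le_log (by linarith) h3
      rw [Real.log_mul (by norm_num) (Real.exp_pos _).ne', Real.log_exp] at h5
      have := Real.log_two_lt_d9
      linarith
    have hω : (k.primeFactors.card : ℝ) ≤ Real.exp (v ^ (1 - δ / 4)) := by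
      have h5 := omega_le (show 0 < k from hk)
      have h6 : Lam ^ CW₀ ≤ (Lam * Real.exp (2 * v ^ (1 - δ))) ^ CW := by
        have h7 : Lam ≤ Lam * Real.exp (2 * v ^ (1 - δ)) :=
          le_mul_of_one_le_right (by linarith) (Real.one_le_exp (by linarith))
        calc Lam ^ CW₀ ≤ Lam ^ CW := Real.rpow_le_rpow_of_exponent_le hL1 (le_max_left _ _)
          _ ≤ _ := Real.rpow_le_rpow (by linarith) h7 (by linarith)
      have h8 := num.hW
      have h9 : 0 ≤ (Lam * Real.exp (2 * v ^ (1 - δ))) ^ CW := by positivity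
      have h10 : 4 * Lam ^ CW₀ ≤ 2 * (CW * (Lam * Real.exp (2 * v ^ (1 - δ))) ^ CW) := by
        nlinarith
      linarith
    refine ⟨hx1, hxN, s, B, l, k, hBS, hBc, hs1, hlp.two_le, hk, ⟨l, hlp, dvd_rfl, ?_⟩, hω, heq⟩
    refine le_trans ?_ num.LQ
    rw [Real.log_le_iff_le_exp (by exact_mod_cast hlp.pos)]
    exact hlL
  have hfin : (ExcXS N S g r (v ^ (1 - δ / 4)) (Real.exp (v ^ (1 - δ / 4)))).Finite := by
    apply (Finset.finite_toSet (Icc 1 N)).subset
    intro x hx
    rw [mem_coe, mem_Icc]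
    exact ⟨hx.1, hx.2.1⟩
  have hcr := hcore X N g r H S ((le_max_left _ _).trans hX) hH (by
    refine le_trans ?_ hN
    apply Real.exp_le_exp.2
    apply mul_le_mul_of_nonneg_left _ hH0.le
    apply Real.rpow_le_rpow_of_exponent_le hlV1
    linarith) hS hSb hg hgN
  have h1 : (ExcFH N S g r w).ncard ≤ 1 + (ExcXS N S g r (v ^ (1 - δ / 4))
      (Real.exp (v ^ (1 - δ / 4)))).ncard := by
    refine (Set.ncard_le_ncard hsub ((Set.finite_singleton 1).union hfin)).trans ?_
    refine (Set.ncard_union_le _ _).trans ?_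
    rw [Set.ncard_singleton]
  have h2 : ((ExcFH N S g r w).ncard : ℝ) ≤ 1 + ((ExcXS N S g r
      (v ^ (1 - δ / 4)) (Real.exp (v ^ (1 - δ / 4)))).ncard : ℝ) := by
    exact_mod_cast h1
  have hN1 : (1 : ℝ) ≤ N := by exact_mod_cast hN0
  have h3 : (1 : ℝ) ≤ (N : ℝ) ^ (1 - κ₀) := Real.one_le_rpow hN1 (by linarith)
  have h4 : (2 : ℝ) ≤ (N : ℝ) ^ (κ₀ / 2) := by
    rw [Real.rpow_def_of_pos hNr]
    have h5 : 1 ≤ Real.log N * (κ₀ / 2) := by
      have h6 := num.uκ
      rw [div_le_iff₀ hκ₀] at h6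
      have h7 : v * κ₀ ≤ u * κ₀ := mul_le_mul_of_nonneg_right hvu hκ₀.le
      have h8 : Real.log N = u := rfl
      rw [h8]
      linarith
    have := Real.add_one_le_exp (Real.log N * (κ₀ / 2))
    linarith
  have h5 : (N : ℝ) ^ (1 - κ₀ / 2) = (N : ℝ) ^ (1 - κ₀) * (N : ℝ) ^ (κ₀ / 2) := by
    rw [← Real.rpow_add hNr]; congr 1; ring
  rw [h5]
  nlinarith

end Pool.Agent.Work.MP_2738db_nt_S.helper1
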