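import Pool.Agent.Work.MP_2738db_nt_S_helper1.FinalFS

/-!
Theorem FS for a family of at most `N ^ κ` sets.
-/

set_option autoImplicit false

namespace Pool.Agent.Work.MP_2738db_nt_S.helper1

open Finset

/-- Theorem FS for families of sets -/
def Stmt_FSF : Prop :=
  ∀ ε σ : ℝ, 0 < ε → 0 ≤ σ → σ + ε < 1 → ∃ κ X₀ : ℝ, 0 < κ ∧
    ∀ (X N g r : ℕ) (F : Finset (Finset ℕ)), X₀ ≤ X →
    Real.exp (Real.log (Real.log X) ^ ((1 + ε) / (1 - σ))) ≤ N →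
    (F.card : ℝ) ≤ (N : ℝ) ^ κ →
    (∀ S ∈ F, (S.card : ℝ) ≤ (Real.log N) ^ σ ∧ ∀ b ∈ S, 2 ≤ b ∧ b ≤ X) →
    1 ≤ g → g * N + r ≤ X →
    ({x : ℕ | 1 ≤ x ∧ x ≤ N ∧ ∃ S ∈ F,
      ∃ a B m k : ℕ, B ∈ Submonoid.closure (S : Set ℕ) ∧ Nat.Coprime B (g * x + r) ∧
        1 ≤ a ∧ 2 ≤ m ∧ 1 ≤ k ∧
        ((∃ p : ℕ, p.Prime ∧ p ∣ m ∧ Real.log p ≤ (Real.log N) ^ (1 - σ - ε)) ∨
          (∀ b ∈ S, ∃ p : ℕ, p.Prime ∧ p ∣ b ∧ Real.log p ≤ (Real.log N) ^ (1 - σ - ε)) ∨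
          (S.card = 1 ∧ ∃ p : ℕ, p.Prime ∧ p ∣ g * x + r ∧
            Real.log p ≤ (Real.log N) ^ (1 - σ - ε))) ∧
        (a ^ m + B = (g * x + r) ^ k ∨ B + (g * x + r) ^ k = a ^ m ∨
          (g * x + r) ^ k + a ^ m = B)}.ncard : ℝ) ≤ (N : ℝ) ^ (1 - κ)

theorem final_FSF : Stmt_FSF := by
  classical
  intro ε σ hε hσ hσε
  obtain ⟨κ, X₀, hκ, hX₀⟩ := final_FS ε σ hε hσ hσε
  refine ⟨κ / 2, X₀, by positivity, ?_⟩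
  intro X N g r F hX hN hFc hF hg hgN
  have hNr : (0 : ℝ) < N := lt_of_lt_of_le (Real.exp_pos _) hN
  have hFc' : (F.card : ℝ) ≤ (N : ℝ) ^ (κ / 2) := hFc
  have hfin : ∀ S, (ExcFS N S g r ((Real.log N) ^ (1 - σ - ε))).Finite := by
    intro S
    apply (Finset.finite_toSet (Icc 1 N)).subset
    intro x hx
    rw [mem_coe, mem_Icc]
    exact ⟨hx.1, hx.2.1⟩
  set G : Finset ℕ → Finset ℕ := fun S => (hfin S).toFinset with hG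
  have h1 : ∀ S ∈ F, ((G S).card : ℝ) ≤ (N : ℝ) ^ (1 - κ) := by
    intro S hS
    have h2 := hX₀ X N g r S hX hN (hF S hS).1 (hF S hS).2 hg hgN
    rwa [Set.ncard_eq_toFinset_card _ (hfin S)] at h2
  have key : ∀ T : Set ℕ, T ⊆ ↑(F.biUnion G) → (T.ncard : ℝ) ≤ (N : ℝ) ^ (1 - κ / 2) := by
    intro T hT
    have h3 := Set.ncard_le_ncard hT (Finset.finite_toSet _)
    rw [Set.ncard_coe_finset] at h3
    calc (T.ncard : ℝ) ≤ ((F.biUnion G).card : ℝ) := Nat.cast_le.2 h3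
      _ ≤ ∑ S ∈ F, ((G S).card : ℝ) := by
          exact_mod_cast card_biUnion_le
      _ ≤ ∑ _S ∈ F, (N : ℝ) ^ (1 - κ) := sum_le_sum h1
      _ = F.card * (N : ℝ) ^ (1 - κ) := by rw [sum_const, nsmul_eq_mul]
      _ ≤ (N : ℝ) ^ (κ / 2) * (N : ℝ) ^ (1 - κ) :=
          mul_le_mul_of_nonneg_right hFc' (Real.rpow_nonneg hNr.le _)
      _ = (N : ℝ) ^ (1 - κ / 2) := by rw [← Real.rpow_add hNr]; congr 1; ring
  apply key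
  rintro x ⟨hx1, hxN, S, hS, hrest⟩
  rw [mem_coe, mem_biUnion]
  refine ⟨S, hS, ?_⟩
  rw [hG]
  exact (hfin S).mem_toFinset.2 ⟨hx1, hxN, hrest⟩

end Pool.Agent.Work.MP_2738db_nt_S.helper1
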