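import Pool.Agent.Work.MP_2738db_nt_X_helper40.Core

/-!
The sieve core of Theorem X (helper40) with the monoid generated by a set `S` of at most
`(log N)^σ` integers in place of the powers of one `b`.
-/

set_option autoImplicit false

namespace Pool.Agent.Work.MP_2738db_nt_S.helper1

open Finset Filter
open Pool.Agent.Work.MP_2738db_nt_U (PY LM)
open Pool.Agent.Work.MP_2738db_nt_Z (PR DQ KZ Stmt_Mom)
open Pool.Agent.Work.MP_2738db_nt_X (Stmt_Dpq)
open Pool.Agent.Work.MP_2738db_nt_Z.helper40 (GoodD Qs mem_Qs Qs_card Qs_dvd KZ_bounds one_setS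
  BB BB_card closure_prod closure_red FSS GoodS)
open Pool.Agent.Work.MP_2738db_nt_X.helper40 (gcd_smallX NumX numericX set_numX)
open Pool.Agent.Work.MP_2738db_nt_U.helper40 (pow_red gcd_red prod_PY_le mem_PY omega_le sβ sρ
  ev_pow ev_log ev_exp)

/-- the exceptional set of the core theorem -/
def ExcXS (N : ℕ) (S : Finset ℕ) (g r : ℕ) (E₀ F₀ : ℝ) : Set ℕ :=
  {x : ℕ | 1 ≤ x ∧ x ≤ N ∧ ∃ a B m k : ℕ, B ∈ Submonoid.closure (S : Set ℕ) ∧
        Nat.Coprime B (g * x + r) ∧ 1 ≤ a ∧ 2 ≤ m ∧ 1 ≤ k ∧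
        (∃ l : ℕ, l.Prime ∧ l ∣ m ∧ Real.log l ≤ E₀) ∧ (k.primeFactors.card : ℝ) ≤ F₀ ∧
        (a ^ m + B = (g * x + r) ^ k ∨ B + (g * x + r) ^ k = a ^ m ∨
          (g * x + r) ^ k + a ^ m = B)}

/-- the core -/
def Stmt_X0S : Prop :=
  ∀ ε σ : ℝ, 0 < ε → 0 ≤ σ → σ < 1 → ∃ κ X₀ : ℝ, 0 < κ ∧ κ ≤ 1 ∧
    ∀ (X N g r : ℕ) (S : Finset ℕ), X₀ ≤ X →
    Real.exp (Real.log (Real.log X) ^ ((1 + ε) / (1 - σ))) ≤ N →
    (S.card : ℝ) ≤ (Real.log N) ^ σ → (∀ b ∈ S, 2 ≤ b ∧ b ≤ X) → 1 ≤ g → g * N + r ≤ X →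
    ((ExcXS N S g r ((Real.log N) ^ ((1 - σ) * (1 - ε)))
      (Real.exp ((Real.log N) ^ ((1 - σ) * (1 - ε))))).ncard : ℝ) ≤ (N : ℝ) ^ (1 - κ)

/-- the size of one set of the union bound -/
lemma FSS_cardX (hL : MP_2738db_nt_U.Stmt_Loc) (hM : Stmt_Mom)
    {γ γ1 u t : ℝ} (hu3 : 3 ≤ u) (ht4 : 4 ≤ t) (ht : 16 * t ≤ u)
    (hrr : 72 * u ^ 2 ≤ Real.exp (γ * t / 2)) (hγ : 0 < γ) (hγ1 : 0 < γ1) (hg1 : γ1 ≤ γ / 32)
    (hg2 : γ1 ≤ 1 / 2) {N P g r : ℕ} (hgP : g ∣ P) (hN : (N : ℝ) = Real.exp u)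
    (DD : ℕ → Finset ℕ) (θ : ℕ × ℕ × ℕ × ℕ × ℕ) (hθ : GoodS P t γ DD θ) :
    ((FSS N P g r t DD θ).card : ℝ) ≤ 2 * Real.exp ((1 - γ1) * u) := by
  classical
  obtain ⟨hlp, hκ, hcard, hg, hB⟩ := hθ
  set Q := Qs t P θ.1 θ.2.1 (DD θ.1) with hQ
  have hQp : ∀ q ∈ Q, q.Prime := fun q hq => (mem_Qs hq).1
  have hq2 : ∀ q ∈ Q, 400 ≤ q := by
    intro q hq
    have h1 := hg q hq
    have h2 : 1 ≤ (Nat.gcd θ.2.2.1 (q - 1)) ^ 2 :=
      Nat.one_le_pow _ _ (Nat.gcd_pos_of_pos_left _ hκ)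
    omega
  have hQne : Q.Nonempty := by
    rw [← Finset.card_pos]
    have : (0 : ℝ) < (Q.card : ℝ) := lt_of_lt_of_le (by positivity) hcard
    exact_mod_cast this
  obtain ⟨hr1, hsz⟩ := set_numX hu3 ht4 ht hrr hγ hγ1 hg1 hg2 hcard
    (z := ⌊Real.exp t⌋₊) (Nat.floor_le (Real.exp_pos t).le)
  have h1 := one_setS hL hM (N := N) (l := θ.1) (κ := θ.2.2.1) (z := ⌊Real.exp t⌋₊)
    (r := ⌊u / (8 * t)⌋₊) (g := g) (h := r) hlp hκ Q hQp
    (fun q hq => Nat.le_floor (mem_Qs hq).2.1)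
    (by
      intro q hq
      obtain ⟨_, _, _, d, _, h4⟩ := mem_Qs hq
      refine ⟨2 * d * θ.2.1, ?_⟩
      have : q - 1 = 2 * θ.1 * d * θ.2.1 := by omega
      rw [this]; ring)
    hg hQne hr1
    (fun q hq hqg => (mem_Qs hq).2.2.1 (hqg.trans hgP))
    (sβ θ.2.2.2.2 * (θ.2.2.2.1 : ℤ)) (sρ θ.2.2.2.2)
    (by
      intro q hq h
      haveI : Fact q.Prime := ⟨hQp q hq⟩
      rw [ZMod.intCast_zmod_eq_zero_iff_dvd] at h
      have h3 : (q : ℤ) ∣ (θ.2.2.2.1 : ℤ) := by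
        unfold sβ at h
        split_ifs at h
        · simpa using h
        · simpa using h
      exact hB q hq (by exact_mod_cast h3))
    (by
      intro q hq h
      haveI : Fact q.Prime := ⟨hQp q hq⟩
      rw [ZMod.intCast_zmod_eq_zero_iff_dvd] at h
      have h5 := hq2 q hq
      have h3 : (q : ℤ) ∣ 1 := by
        unfold sρ at h
        split_ifs at h
        · simpa using h
        · exact h
      have := Int.le_of_dvd (by norm_num) h3
      omega)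
  have h2 : {x : ℕ | 1 ≤ x ∧ x ≤ N ∧ ∀ q ∈ Q, ∃ s : ZMod q,
      ((g * x + r : ℕ) : ZMod q) ^ θ.2.2.1 + ((sβ θ.2.2.2.2 * (θ.2.2.2.1 : ℤ) : ℤ) : ZMod q)
        = ((sρ θ.2.2.2.2 : ℤ) : ZMod q) * s ^ θ.1} = ↑(FSS N P g r t DD θ) := by
    ext c
    unfold FSS
    simp only [Set.mem_ofPred_eq, coe_filter, mem_Icc, and_assoc, ← hQ]
  rw [h2, Set.ncard_coe_finset] at h1
  refine h1.trans ?_
  rw [hN]
  exact hsz

/-- the numerical facts -/
structure NumXS (e α T γ γ1 : ℝ) (u : ℝ) : Prop where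
  num : NumX e 1 1 T (γ / 2) (γ1 / 2) (u ^ α) (Real.exp ((u ^ α) ^ (1 - e)))
    ((u ^ α) ^ (1 - e / 2)) ((u ^ α) ^ (1 - e / 4)) (Real.exp ((u ^ α) ^ (1 - 3 * e / 4)))
  u3 : 3 ≤ u
  v1 : 1 ≤ u ^ α
  vu : u ^ α ≤ u
  hr : 72 * u ^ 2 ≤ Real.exp (γ * ((u ^ α) ^ (1 - e / 2)) / 2)
  hS : 8 * u ^ (1 - α * e / 4) ≤ γ1 / 8 * u

theorem numericXS (e α T γ γ1 : ℝ) (he0 : 0 < e) (he1 : e < 1) (hα0 : 0 < α) (hα1 : α ≤ 1)
    (hγ : 0 < γ) (hγ1 : 0 < γ1) : ∃ u0 : ℝ, ∀ u : ℝ, u0 ≤ u → NumXS e α T γ γ1 u := by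
  obtain ⟨v0, hv0⟩ := numericX e 1 1 T (γ / 2) (γ1 / 2) he0 he1 (by positivity) (by positivity)
  have hs : 0 < α * (1 - e / 2) := mul_pos hα0 (by linarith)
  have e1 := (tendsto_rpow_atTop hα0).eventually_ge_atTop v0
  have e2 := ev_exp 2 72 hs (show (0 : ℝ) < γ / 2 by positivity)
  have e3 := ev_pow (64 / γ1) (show 1 - α * e / 4 < 1 by nlinarith)
  have e4 := eventually_ge_atTop (3 : ℝ)
  obtain ⟨u0, hu0⟩ := eventually_atTop.mp (e1.and (e2.and (e3.and e4)))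
  refine ⟨u0, fun u hu => ?_⟩
  obtain ⟨f1, f2, f3, f4⟩ := hu0 u hu
  have hu0' : 0 < u := by linarith
  have hu1 : 1 ≤ u := by linarith
  refine ⟨hv0 _ f1, f4, Real.one_le_rpow hu1 hα0.le, ?_, ?_, ?_⟩
  · calc u ^ α ≤ u ^ (1 : ℝ) := Real.rpow_le_rpow_of_exponent_le hu1 hα1
      _ = u := Real.rpow_one u
  · rw [show (u : ℝ) ^ 2 = u ^ (2 : ℝ) by rw [← Real.rpow_natCast]; norm_num]
    refine f2.trans (le_of_eq ?_)
    rw [← Real.rpow_mul hu0'.le]
    congr 1; ring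
  · rw [Real.rpow_one] at f3
    have h1 : γ1 / 8 * (64 / γ1 * u ^ (1 - α * e / 4)) ≤ γ1 / 8 * u :=
      mul_le_mul_of_nonneg_left f3 (by positivity)
    refine le_trans (le_of_eq ?_) h1
    field_simp
    norm_num

/-- the final numerical inequality -/
lemma count_numXS {u t y Lam Z γ1 : ℝ} (ht4 : 4 ≤ t) (hty : t ≤ y) (hL2 : 2 ≤ Lam)
    (hγ1 : 0 < γ1) (hg2 : γ1 ≤ 1 / 2) (hu : 0 < u) (s : ℕ)
    (hs : ((s : ℝ) + 1) * (4 * y) ≤ 8 * Z)
    (h1S : 2 + (Real.log Lam + (t + 8 * Z)) ≤ γ1 / 4 * u) :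
    1 + (Lam * (Real.exp t * (Real.exp (t + 2 * y * Real.log 4) *
      ((Real.exp (t + 2 * y * Real.log 4)) ^ s * 3)))) *
      (2 * Real.exp ((1 - γ1) * u)) ≤ Real.exp ((1 - γ1 / 2) * u) := by
  have hLam0 : 0 < Lam := by linarith
  have hLexp : Lam = Real.exp (Real.log Lam) := (Real.exp_log hLam0).symm
  have hlL : 0 ≤ Real.log Lam := Real.log_nonneg (by linarith)
  have hlog4 : Real.log 4 ≤ 14 / 10 := by
    have : Real.log 4 = 2 * Real.log 2 := by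
      rw [show (4 : ℝ) = 2 ^ 2 by norm_num, Real.log_pow]; norm_num
    have := Real.log_two_lt_d9
    linarith
  have h7 : (7 : ℝ) ≤ Real.exp 2 := by
    have h3 : Real.exp 2 = Real.exp 1 * Real.exp 1 := by
      rw [← Real.exp_add]; norm_num
    have h4 : (2.7 : ℝ) < Real.exp 1 := by have := Real.exp_one_gt_d9; linarith
    nlinarith
  have hy0 : 0 ≤ y := by linarith
  have hl4 : 0 ≤ 2 * y * Real.log 4 := mul_nonneg (by linarith) (Real.log_nonneg (by norm_num))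
  have hX4 : t + 2 * y * Real.log 4 ≤ 4 * y := by
    have h1 : 2 * y * Real.log 4 ≤ 2 * y * (14 / 10) :=
      mul_le_mul_of_nonneg_left hlog4 (by linarith)
    linarith
  set M := Lam * (Real.exp t * (Real.exp (t + 2 * y * Real.log 4) *
    (Real.exp (t + 2 * y * Real.log 4)) ^ s)) with hM
  have hM1 : M = Real.exp (Real.log Lam + (t + ((s : ℝ) + 1) * (t + 2 * y * Real.log 4))) := by
    rw [hM]
    conv_lhs => rw [hLexp]
    rw [← Real.exp_nat_mul, ← Real.exp_add, ← Real.exp_add, ← Real.exp_add]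
    congr 1; ring
  have hs0 : (0 : ℝ) ≤ s := Nat.cast_nonneg s
  have hMge : 1 ≤ M := by
    rw [hM1]
    apply Real.one_le_exp
    have h3 : 0 ≤ ((s : ℝ) + 1) * (t + 2 * y * Real.log 4) := mul_nonneg (by linarith) (by linarith)
    linarith
  have hEge : 1 ≤ Real.exp ((1 - γ1) * u) := by
    apply Real.one_le_exp
    apply mul_nonneg (by linarith) hu.le
  have hMle : M ≤ Real.exp (Real.log Lam + (t + 8 * Z)) := by
    rw [hM1]
    apply Real.exp_le_exp.mpr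
    have h1 : ((s : ℝ) + 1) * (t + 2 * y * Real.log 4) ≤ ((s : ℝ) + 1) * (4 * y) :=
      mul_le_mul_of_nonneg_left hX4 (by linarith)
    linarith
  calc 1 + (Lam * (Real.exp t * (Real.exp (t + 2 * y * Real.log 4) *
      ((Real.exp (t + 2 * y * Real.log 4)) ^ s * 3)))) *
      (2 * Real.exp ((1 - γ1) * u)) = 1 + 6 * (M * Real.exp ((1 - γ1) * u)) := by rw [hM]; ring
    _ ≤ 7 * (M * Real.exp ((1 - γ1) * u)) := by
        have : 1 ≤ M * Real.exp ((1 - γ1) * u) := by nlinarith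
        linarith
    _ ≤ Real.exp 2 * (Real.exp (Real.log Lam + (t + 8 * Z)) * Real.exp ((1 - γ1) * u)) := by
        apply mul_le_mul h7 _ (by positivity) (Real.exp_pos _).le
        exact mul_le_mul_of_nonneg_right hMle (Real.exp_pos _).le
    _ = Real.exp ((2 + (Real.log Lam + (t + 8 * Z))) + (1 - γ1) * u) := by
        rw [← Real.exp_add, ← Real.exp_add]; congr 1; ring
    _ ≤ Real.exp ((1 - γ1 / 2) * u) := by
        apply Real.exp_le_exp.mpr
        have h2 : 0 ≤ γ1 / 4 * u := by positivity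
        have h3 : (1 - γ1 / 2) * u = (γ1 / 4 * u + (1 - γ1) * u) + γ1 / 4 * u := by ring
        rw [h3]
        linarith

theorem stmt_X0S (hL : MP_2738db_nt_U.Stmt_Loc) (hM : Stmt_Mom) (hD : Stmt_Dpq) : Stmt_X0S := by
  classical
  intro ε σ hε0 hσ0 hσ1
  set α : ℝ := 1 - σ with hα
  have hα0 : 0 < α := by rw [hα]; linarith
  have hα1 : α ≤ 1 := by rw [hα]; linarith
  set e : ℝ := ε / (1 + ε) with he
  have hε1 : (0 : ℝ) < 1 + ε := by linarith
  have he0 : 0 < e := by positivity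
  have he1 : e < 1 := by rw [he, div_lt_one hε1]; linarith
  have he2 : (1 + ε) / α * (α * (1 - e)) = 1 := by rw [he]; field_simp; ring
  have he3 : e ≤ ε := by
    rw [he, div_le_iff₀ hε1]; nlinarith
  obtain ⟨γ, hγ, T, hDp⟩ := hD (e / 4) (by linarith) (by linarith)
  set γ1 : ℝ := min (γ / 32) (1 / 2) with hγ1d
  have hg1 : γ1 ≤ γ / 32 := min_le_left _ _
  have hg2 : γ1 ≤ 1 / 2 := min_le_right _ _
  have hγ1 : 0 < γ1 := lt_min (by positivity) (by norm_num)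
  obtain ⟨u0, hu0⟩ := numericXS e α T γ γ1 he0 he1 hα0 hα1 hγ hγ1
  refine ⟨γ1 / 2, Real.exp (Real.exp (max 1 u0)), by positivity, by linarith, ?_⟩
  intro X N g r S hX hN hS hSb hg hgN
  set E₀ := (Real.log N) ^ (α * (1 - ε)) with hE₀
  -- the sizes of `X` and `N`
  have hX0 : (0 : ℝ) < X := lt_of_lt_of_le (Real.exp_pos _) hX
  have hN0r : (0 : ℝ) < N := lt_of_lt_of_le (Real.exp_pos _) hN
  have hN0 : 0 < N := by exact_mod_cast hN0r
  set V := Real.log X with hV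
  set u := Real.log N with hu
  have hV1 : Real.exp (max 1 u0) ≤ V := by
    rw [hV, Real.le_log_iff_exp_le hX0]; exact hX
  have hV0 : 0 < V := lt_of_lt_of_le (Real.exp_pos _) hV1
  have hlV : max 1 u0 ≤ Real.log V := by
    rw [Real.le_log_iff_exp_le hV0]; exact hV1
  have hlV1 : 1 ≤ Real.log V := (le_max_left _ _).trans hlV
  have hlV0 : 0 < Real.log V := by linarith
  have hu1' : Real.log V ^ ((1 + ε) / α) ≤ u := by
    rw [hu, Real.le_log_iff_exp_le hN0r]; exact hN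
  have hex1 : 1 ≤ (1 + ε) / α := by
    rw [le_div_iff₀ hα0]; linarith
  have huu : u0 ≤ u := by
    refine ((le_max_right _ _).trans hlV).trans (le_trans ?_ hu1')
    calc Real.log V = Real.log V ^ (1 : ℝ) := (Real.rpow_one _).symm
      _ ≤ Real.log V ^ ((1 + ε) / α) := Real.rpow_le_rpow_of_exponent_le hlV1 hex1
  have hNS := hu0 u huu
  have num := hNS.num
  have hu3 := hNS.u3
  have hu0' : 0 < u := by linarith
  have hu1 : 1 ≤ u := by linarith
  set v := u ^ α with hv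
  have hv1 : 1 ≤ v := hNS.v1
  have hvu : v ≤ u := hNS.vu
  have hVW : V ≤ Real.exp (v ^ (1 - e)) := by
    rw [← Real.log_le_iff_le_exp hV0]
    calc Real.log V = (Real.log V ^ ((1 + ε) / α)) ^ (α * (1 - e)) := by
          rw [← Real.rpow_mul hlV0.le, he2, Real.rpow_one]
      _ ≤ u ^ (α * (1 - e)) := Real.rpow_le_rpow (Real.rpow_nonneg hlV0.le _) hu1'
          (mul_nonneg hα0.le (by linarith))
      _ = v ^ (1 - e) := by rw [hv, ← Real.rpow_mul hu0'.le]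
  have hV1' : 1 ≤ V := by
    have := Real.add_one_le_exp (max 1 u0)
    have := le_max_left 1 u0
    linarith
  set W := Real.exp (v ^ (1 - e)) with hW
  set t := v ^ (1 - e / 2) with ht
  set y := v ^ (1 - e / 4) with hy
  set Lam := Real.exp (v ^ (1 - 3 * e / 4)) with hLam
  have hy3 := num.y3
  have ht4 := num.t4
  have ht16 : 16 * t ≤ u := num.ht.trans hvu
  have hNe : (N : ℝ) = Real.exp u := by rw [hu, Real.exp_log hN0r]
  have hlog : ∀ z : ℕ, 1 ≤ z → z ≤ X → Real.log z ≤ V := by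
    intro z h1 h2
    exact Real.log_le_log (by exact_mod_cast h1) (by exact_mod_cast h2)
  have hgX : g ≤ X := by
    have : g ≤ g * N := Nat.le_mul_of_pos_right g hN0
    omega
  have hσ1' : u ^ σ ≤ u := by
    calc u ^ σ ≤ u ^ (1 : ℝ) := Real.rpow_le_rpow_of_exponent_le hu1 (by linarith)
      _ = u := Real.rpow_one u
  have hσge : 1 ≤ u ^ σ := Real.one_le_rpow hu1 hσ0
  have hSu : (S.card : ℝ) ≤ u := hS.trans hσ1'
  set P : ℕ := (∏ b ∈ S, b) * g with hP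
  have hbpos : ∀ b ∈ S, 0 < b := fun b hb => by have := (hSb b hb).1; omega
  have hP0 : 0 < P := by
    rw [hP]
    exact Nat.mul_pos (Finset.prod_pos hbpos) hg
  have hgP : g ∣ P := Dvd.intro_left _ rfl
  have hbP : ∀ b ∈ S, b ∣ P := fun b hb => (Finset.dvd_prod_of_mem _ hb).trans (Dvd.intro _ rfl)
  have hPu : Real.log P ≤ 2 * u * V := by
    rw [hP]
    push_cast
    rw [Real.log_mul (by
        rw [← Nat.cast_prod]
        exact_mod_cast (Finset.prod_pos hbpos).ne') (by exact_mod_cast (by omega : g ≠ 0)),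
      Real.log_prod (fun b hb => by
        have := hbpos b hb
        exact_mod_cast this.ne')]
    have h1 : ∑ b ∈ S, Real.log (b : ℝ) ≤ ∑ _b ∈ S, V :=
      Finset.sum_le_sum (fun b hb => hlog b (hbpos b hb) (hSb b hb).2)
    rw [Finset.sum_const, nsmul_eq_mul] at h1
    have h2 : (S.card : ℝ) * V ≤ u * V := mul_le_mul_of_nonneg_right hSu hV0.le
    have h3 := hlog g hg hgX
    have h4 : V ≤ u * V := by nlinarith
    linarith
  have hremove : 2 * Real.log P ≤ Real.exp (γ * t) / 2 := by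
    have h1 : 8 * W ≤ Real.exp (γ / 2 * t) := num.hb
    have h2 : u ≤ Real.exp (γ * t / 2) := by
      refine le_trans ?_ hNS.hr
      nlinarith
    have h3 : 2 * Real.log P ≤ 4 * (u * W) := by
      have : u * V ≤ u * W := mul_le_mul_of_nonneg_left hVW hu0'.le
      linarith
    have h4 : u * (8 * W) ≤ Real.exp (γ * t / 2) * Real.exp (γ / 2 * t) :=
      mul_le_mul h2 h1 (by positivity) (Real.exp_pos _).le
    rw [← Real.exp_add] at h4
    have h5 : γ * t / 2 + γ / 2 * t = γ * t := by ring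
    rw [h5] at h4
    linarith
  -- the sets `D`
  have hDex : ∀ l : ℕ, ∃ (D : Finset ℕ) (D₀ : ℝ), l.Prime → (l : ℝ) ≤ Lam →
      (GoodD t y D D₀ ∧ ∀ k : ℕ, 1 ≤ k → (k.primeFactors.card : ℝ) ≤ Real.exp (t ^ (1 - e / 4)) →
          ∃ k₀ : ℕ, 1 ≤ k₀ ∧ (k₀ : ℝ) ≤ KZ t D₀ l ∧
            (Nat.gcd k k₀ : ℝ) ≤ (KZ t D₀ l) ^ (3 / 10 : ℝ) ∧
            (KZ t D₀ l) ^ (9 / 10 : ℝ) ≤ (k₀ : ℝ) ∧
            Real.exp (γ * t) ≤ ((DQ t l k₀ D).card : ℝ)) := by
    intro l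
    by_cases h : l.Prime ∧ (l : ℝ) ≤ Lam
    · have hll : Real.log l ≤ t ^ (1 - e / 4) := by
        refine le_trans ?_ num.LA
        exact Real.log_le_log (by exact_mod_cast h.1.pos) h.2
      obtain ⟨D, D₀, h1, h2, h3, h4⟩ := hDp t y num.tT num.ty num.yA l h.1 hll
      exact ⟨D, D₀, fun _ _ => ⟨⟨h1, h2, h3⟩, h4⟩⟩
    · exact ⟨∅, 0, fun h1 h2 => absurd ⟨h1, h2⟩ h⟩
  choose DD D0 hDD using hDex
  set Y := Real.exp (t + 2 * y * Real.log 4) with hY
  set Θ : Finset (ℕ × ℕ × ℕ × ℕ × ℕ) :=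
    Icc 1 ⌊Lam⌋₊ ×ˢ (Icc 1 ⌊Real.exp t⌋₊ ×ˢ (Icc 1 ⌊Y⌋₊ ×ˢ (BB S ⌊Y⌋₊ ×ˢ range 3))) with hΘ
  have hLam0 : 0 ≤ Lam := (Real.exp_pos _).le
  have hY0 : 0 ≤ Y := (Real.exp_pos _).le
  have hΘc : (Θ.card : ℝ) ≤ Lam * (Real.exp t * (Y * (Y ^ S.card * 3))) := by
    rw [hΘ, card_product, card_product, card_product, card_product, Nat.card_Icc, Nat.card_Icc,
      Nat.card_Icc, card_range]
    simp only [Nat.add_sub_cancel]
    push_cast
    have a1 := Nat.floor_le hLam0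
    have a2 := Nat.floor_le (Real.exp_pos t).le
    have a3 := Nat.floor_le hY0
    have a4 : ((BB S ⌊Y⌋₊).card : ℝ) ≤ Y ^ S.card := by
      calc ((BB S ⌊Y⌋₊).card : ℝ) ≤ ((⌊Y⌋₊ ^ S.card : ℕ) : ℝ) := by exact_mod_cast BB_card S _
        _ = (⌊Y⌋₊ : ℝ) ^ S.card := by push_cast; rfl
        _ ≤ Y ^ S.card := pow_le_pow_left₀ (by positivity) a3 _
    have b1 : (0 : ℝ) ≤ ((BB S ⌊Y⌋₊).card : ℝ) * 3 := mul_nonneg (Nat.cast_nonneg _) (by norm_num)
    have b2 : (0 : ℝ) ≤ (⌊Y⌋₊ : ℝ) * (((BB S ⌊Y⌋₊).card : ℝ) * 3) :=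
      mul_nonneg (Nat.cast_nonneg _) b1
    have b3 : (0 : ℝ) ≤ (⌊Real.exp t⌋₊ : ℝ) * ((⌊Y⌋₊ : ℝ) * (((BB S ⌊Y⌋₊).card : ℝ) * 3)) :=
      mul_nonneg (Nat.cast_nonneg _) b2
    exact mul_le_mul a1 (mul_le_mul a2 (mul_le_mul a3
      (mul_le_mul_of_nonneg_right a4 (by norm_num)) b1 hY0) b2
      (Real.exp_pos _).le) b3 hLam0
  -- the inclusion
  have hincl : ExcXS N S g r E₀ (Real.exp E₀)
      ⊆ ↑(({1} : Finset ℕ) ∪ (Θ.filter (GoodS P t γ DD)).biUnion (FSS N P g r t DD)) := by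
    intro x hx
    obtain ⟨hx1, hxN, a, B, m, k, hBS, hbc, ha, hm, hk, ⟨l, hlp, hlm, hlE⟩, hkω0, heq⟩ := hx
    rw [coe_union, coe_singleton]
    set c := g * x + r with hc
    by_cases hc1 : c = 1
    · left
      have h1 : g * x ≤ 1 := by omega
      have h2 : x ≤ g * x := Nat.le_mul_of_pos_left x hg
      rw [Set.mem_singleton_iff]
      omega
    right
    rw [mem_coe, mem_biUnion]
    -- the prime exponent
    have hE1 : E₀ ≤ v ^ (1 - e) := by
      rw [hE₀, hv, ← Real.rpow_mul hu0'.le]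
      apply Real.rpow_le_rpow_of_exponent_le hu1
      exact mul_le_mul_of_nonneg_left (by linarith) hα0.le
    have hlL : (l : ℝ) ≤ Lam := by
      rw [hLam, ← Real.log_le_iff_le_exp (by exact_mod_cast hlp.pos)]
      refine hlE.trans (hE1.trans ?_)
      exact Real.rpow_le_rpow_of_exponent_le hv1 (by linarith)
    obtain ⟨m', hm'⟩ := hlm
    obtain ⟨s, has⟩ : ∃ s : ℕ, a ^ m = s ^ l := ⟨a ^ m', by rw [hm', mul_comm, pow_mul]⟩
    have hl1 : 1 ≤ l := hlp.one_lt.le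
    rw [has] at heq
    obtain ⟨hGD, hDE⟩ := hDD l hlp hlL
    have hkω : (k.primeFactors.card : ℝ) ≤ Real.exp (t ^ (1 - e / 4)) := by
      have h1 : Real.exp E₀ ≤ W := Real.exp_le_exp.2 hE1
      have h3 := num.hk
      have h4 := Real.exp_pos (v ^ (1 - e))
      linarith
    obtain ⟨k₀, hk01, hkK, hgcd, hk09, hcard0⟩ := hDE k hk hkω
    have hcard : Real.exp (γ * t) / 2 ≤ ((Qs t P l k₀ (DD l)).card : ℝ) := by
      have h1 := Qs_card (t := t) (b := P) (l := l) (k₀ := k₀) (DD l) hP0 hl1 hk01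
      linarith
    obtain ⟨hK1, hK2, hK3⟩ := KZ_bounds hl1 hlL hGD.1 hGD.2.1 num.hd
    have hy0 : 0 ≤ y := by linarith
    have hprodpos : 0 < ∏ r ∈ PY y, r :=
      Finset.prod_pos fun r hr => (mem_PY hy0 hr).1.pos
    have hLM0 : 0 < LM y l k₀ := by
      unfold LM
      have : 0 < l := hl1
      have : 0 < k₀ := hk01
      positivity
    have hLMX : (LM y l k₀ : ℝ) ≤ Y := by
      unfold LM
      push_cast
      have h1 := prod_PY_le hy0
      push_cast at h1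
      have h2 : (2 : ℝ) * l * k₀ ≤ Real.exp t := by
        refine le_trans ?_ hK3
        apply mul_le_mul_of_nonneg_left hkK (by positivity)
      rw [hY, Real.exp_add]
      apply mul_le_mul h2 h1 (by positivity) (Real.exp_pos _).le
    set κ := (k - 1) % LM y l k₀ + 1 with hκ
    have hκX : κ ≤ ⌊Y⌋₊ := by
      apply Nat.le_floor
      refine le_trans ?_ hLMX
      have := Nat.mod_lt (k - 1) hLM0
      exact_mod_cast (by omega : κ ≤ LM y l k₀)
    obtain ⟨B', hB', hBq⟩ := closure_red hBS hLM0 (Nat.le_floor hLMX)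
    have hBq' : ∀ q ∈ Qs t P l k₀ (DD l), (B : ZMod q) = (B' : ZMod q) ∧ ¬ q ∣ B' := by
      intro q hq
      exact hBq q (mem_Qs hq).1 (Qs_dvd hGD hq)
        (fun b hb hqb => (mem_Qs hq).2.2.1 (hqb.trans (hbP b hb)))
    -- the sign
    have key : ∃ τ < 3, ∀ q ∈ Qs t P l k₀ (DD l), ∃ s : ZMod q,
        (c : ZMod q) ^ κ + ((sβ τ * (B' : ℤ) : ℤ) : ZMod q) = ((sρ τ : ℤ) : ZMod q) * s ^ l := by
      rcases heq with h1 | h1 | h1
      · refine ⟨0, by norm_num, fun q hq => ⟨(s : ZMod q), ?_⟩⟩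
        have h2 := congrArg (fun z : ℕ => (z : ZMod q)) h1
        push_cast at h2
        rw [pow_red (mem_Qs hq).1 hLM0 (Qs_dvd hGD hq) hk, (hBq' q hq).1] at h2
        rw [← hκ] at h2
        rw [show sβ 0 = -1 from rfl, show sρ 0 = 1 from rfl]
        push_cast
        rw [← h2]; ring
      · refine ⟨1, by norm_num, fun q hq => ⟨(s : ZMod q), ?_⟩⟩
        have h2 := congrArg (fun z : ℕ => (z : ZMod q)) h1
        push_cast at h2
        rw [pow_red (mem_Qs hq).1 hLM0 (Qs_dvd hGD hq) hk, (hBq' q hq).1] at h2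
        rw [← hκ] at h2
        rw [show sβ 1 = 1 from rfl, show sρ 1 = 1 from rfl]
        push_cast
        rw [one_mul, one_mul, ← h2]; ring
      · refine ⟨2, by norm_num, fun q hq => ⟨(s : ZMod q), ?_⟩⟩
        have h2 := congrArg (fun z : ℕ => (z : ZMod q)) h1
        push_cast at h2
        rw [pow_red (mem_Qs hq).1 hLM0 (Qs_dvd hGD hq) hk, (hBq' q hq).1] at h2
        rw [← hκ] at h2
        rw [show sβ 2 = -1 from rfl, show sρ 2 = -1 from rfl]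
        push_cast
        rw [← h2]; ring
    obtain ⟨τ, hτ, hτq⟩ := key
    refine ⟨(l, k₀, κ, B', τ), ?_, ?_⟩
    · rw [mem_filter, hΘ, mem_product, mem_product, mem_product, mem_product, mem_Icc, mem_Icc,
        mem_Icc, mem_range]
      refine ⟨⟨⟨hl1, Nat.le_floor hlL⟩, ⟨hk01, Nat.le_floor (hkK.trans hK2)⟩,
        ⟨Nat.le_add_left 1 _, hκX⟩, hB', hτ⟩, ?_⟩
      refine ⟨hlp, Nat.le_add_left 1 _, hcard, ?_, ?_⟩
      · intro q hq
        show 400 * (Nat.gcd κ (q - 1)) ^ 2 ≤ q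
        rw [hκ, gcd_red hLM0 (Qs_dvd hGD hq) hk]
        exact gcd_smallX num.hd num.hg hGD hl1 hlL hgcd hk09 hk01 hq
      · intro q hq
        exact (hBq' q hq).2
    · unfold FSS
      rw [mem_filter, mem_Icc]
      exact ⟨⟨hx1, hxN⟩, hτq⟩
  have hcardU : ((({1} : Finset ℕ) ∪ (Θ.filter (GoodS P t γ DD)).biUnion (FSS N P g r t DD)).card : ℝ)
      ≤ 1 + (Lam * (Real.exp t * (Y * (Y ^ S.card * 3)))) * (2 * Real.exp ((1 - γ1) * u)) := by
    have h1 : ((({1} : Finset ℕ) ∪ (Θ.filter (GoodS P t γ DD)).biUnion (FSS N P g r t DD)).card : ℝ)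
        ≤ 1 + ∑ θ ∈ Θ.filter (GoodS P t γ DD), ((FSS N P g r t DD θ).card : ℝ) := by
      have h2 : (({1} : Finset ℕ) ∪ (Θ.filter (GoodS P t γ DD)).biUnion (FSS N P g r t DD)).card
          ≤ 1 + ∑ θ ∈ Θ.filter (GoodS P t γ DD), (FSS N P g r t DD θ).card := by
        refine (card_union_le _ _).trans ?_
        rw [card_singleton]
        exact Nat.add_le_add_left card_biUnion_le _
      exact_mod_cast h2
    refine h1.trans ?_
    have h3 : ∑ θ ∈ Θ.filter (GoodS P t γ DD), ((FSS N P g r t DD θ).card : ℝ)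
        ≤ ∑ _θ ∈ Θ.filter (GoodS P t γ DD), (2 * Real.exp ((1 - γ1) * u)) := by
      apply Finset.sum_le_sum
      intro θ hθ
      exact FSS_cardX hL hM hu3 ht4 ht16 hNS.hr hγ hγ1 hg1 hg2 hgP hNe DD θ (mem_filter.mp hθ).2
    rw [Finset.sum_const, nsmul_eq_mul] at h3
    have h4 : ((Θ.filter (GoodS P t γ DD)).card : ℝ)
        ≤ Lam * (Real.exp t * (Y * (Y ^ S.card * 3))) := by
      refine le_trans ?_ hΘc
      exact_mod_cast card_filter_le _ _
    have h5 : ((Θ.filter (GoodS P t γ DD)).card : ℝ) * (2 * Real.exp ((1 - γ1) * u))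
        ≤ (Lam * (Real.exp t * (Y * (Y ^ S.card * 3)))) * (2 * Real.exp ((1 - γ1) * u)) :=
      mul_le_mul_of_nonneg_right h4 (by positivity)
    linarith
  have hsy : ((S.card : ℝ) + 1) * (4 * y) ≤ 8 * u ^ (1 - α * e / 4) := by
    have h1 : (S.card : ℝ) + 1 ≤ 2 * u ^ σ := by linarith
    have h2 : u ^ σ * y = u ^ (1 - α * e / 4) := by
      rw [hy, hv, ← Real.rpow_mul hu0'.le, ← Real.rpow_add hu0']
      congr 1
      rw [hα]; ring
    calc ((S.card : ℝ) + 1) * (4 * y) ≤ (2 * u ^ σ) * (4 * y) :=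
          mul_le_mul_of_nonneg_right h1 (by linarith)
      _ = 8 * (u ^ σ * y) := by ring
      _ = _ := by rw [h2]
  have h1S : 2 + (Real.log Lam + (t + 8 * u ^ (1 - α * e / 4))) ≤ γ1 / 4 * u := by
    have h1 := num.hS
    have h2 := hNS.hS
    have h3 : γ1 / 2 / 4 * v ≤ γ1 / 8 * u := by
      have : γ1 / 8 * v ≤ γ1 / 8 * u := mul_le_mul_of_nonneg_left hvu (by positivity)
      linarith
    linarith
  have hfin := count_numXS ht4 num.tly num.L2 hγ1 hg2 hu0' S.card hsy h1S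
  have h1 : (ExcXS N S g r E₀ (Real.exp E₀)).ncard
      ≤ (({1} : Finset ℕ) ∪ (Θ.filter (GoodS P t γ DD)).biUnion (FSS N P g r t DD)).card := by
    have := Set.ncard_le_ncard hincl (Finset.finite_toSet _)
    rwa [Set.ncard_coe_finset] at this
  have h2 : ((ExcXS N S g r E₀ (Real.exp E₀)).ncard : ℝ)
      ≤ ((({1} : Finset ℕ) ∪ (Θ.filter (GoodS P t γ DD)).biUnion (FSS N P g r t DD)).card : ℝ) := by
    exact_mod_cast h1
  have h3 : (N : ℝ) ^ (1 - γ1 / 2) = Real.exp ((1 - γ1 / 2) * u) := by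
    rw [hNe, ← Real.exp_mul, mul_comm]
  rw [h3]
  exact h2.trans (hcardU.trans hfin)

end Pool.Agent.Work.MP_2738db_nt_S.helper1
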